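import Pool.Agent.V11245.Filt.Meas

/-!
MP_d359f0_an, Q1: disproved. There is (in ZFC) a poor free filter on the natural numbers
which is not generated by any statistical measure.
-/

namespace Pool.Agent.Results.MP_d359f0_an.PoorNotGenerated

open Pool.Agent.V11245.Filt

/-- There is a free filter on the naturals that is poor but is not the filter generated by
any statistical measure. -/
theorem result : ∃ F : Filter ℕ, IsFree F ∧ IsPoor F ∧
    ∀ μ : Set ℕ → ℝ, IsStatMeasure μ → ¬ GeneratedBy F μ :=
  exists_poor_not_generated

end Pool.Agent.Results.MP_d359f0_an.PoorNotGenerated
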